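import Pool.Agent.P8H72.PC.Clus2
import Pool.Agent.P8H8.PC.Stm

set_option autoImplicit false

/-!
# Package CLUS
-/

namespace Pool.Agent.P8H72.PC

open Finset Filter Topology
open Pool.Agent.P8H8.HF

theorem clus : Pool.Agent.P8H8.PC.S_CLUS := by
  intro y R hF τ σ x a K Q k hτ hσ hR ha hQ hQa haK hk hK
  exact clus_main hF hτ hσ hR ha hQ hQa haK hk hK

end Pool.Agent.P8H72.PC
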