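import Pool.Agent.P8H8.HF.Flow

set_option autoImplicit false

/-!
# Package CLUS, first part: estimates at a fixed time
-/

namespace Pool.Agent.P8H72.PC

open Finset Filter Topology
open Pool.Agent.P8H8.HF

/-- the number of points in the window -/
lemma card_window {y : ℤ → ℝ} {x a K : ℝ} (ha : 0 < a)
    (hK : ∀ᶠ M : ℕ in atTop, ∑ i ∈ Ico (-(M : ℤ)) M, a / ((x - y i) ^ 2 + a ^ 2) ≤ K)
    (F : Finset ℤ) (hF : ∀ i ∈ F, |y i - x| ≤ a) : (F.card : ℝ) ≤ 2 * (a * K) := by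
  have h1 : ∀ᶠ M : ℕ in atTop, ∀ i ∈ F, i ∈ Ico (-(M : ℤ)) M := by
    rw [Filter.eventually_all_finset]
    intro i _
    filter_upwards [eventually_gt_atTop i.natAbs] with M hM
    rw [mem_Ico]
    omega
  obtain ⟨M, hM1, hM2⟩ := (h1.and hK).exists
  have h2 : ∑ i ∈ F, 1 / (2 * a) ≤ ∑ i ∈ F, a / ((x - y i) ^ 2 + a ^ 2) := by
    refine sum_le_sum fun i hi => ?_
    have h3 := hF i hi
    have h4 : (x - y i) ^ 2 ≤ a ^ 2 := by
      rw [← sq_abs (x - y i), abs_sub_comm]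
      exact pow_le_pow_left₀ (abs_nonneg _) h3 2
    rw [div_le_div_iff₀ (by positivity) (by positivity)]
    nlinarith [sq_nonneg a]
  have h3 : ∑ i ∈ F, a / ((x - y i) ^ 2 + a ^ 2) ≤
      ∑ i ∈ Ico (-(M : ℤ)) M, a / ((x - y i) ^ 2 + a ^ 2) :=
    sum_le_sum_of_subset_of_nonneg (fun i hi => hM1 i hi) (fun i _ _ => by positivity)
  rw [sum_const, nsmul_eq_mul] at h2
  have h4 : (F.card : ℝ) * (1 / (2 * a)) ≤ K := h2.trans (h3.trans hM2)
  rw [mul_one_div, div_le_iff₀ (by positivity)] at h4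
  linarith

/-- the relative velocity of two points -/
lemma vel_diff {y : ℤ → ℝ} (hy : StrictMono y) {p p' : ℤ} (hp : p < p') {M : ℕ}
    (h1 : -(M : ℤ) ≤ p) (h2 : p' < M) {h : ℤ → ℝ}
    (hh : ∀ i, i < p ∨ p' < i → ((y p' - y i) * (y p - y i))⁻¹ ≤ h i) (hh0 : ∀ i, 0 ≤ h i) :
    4 + 8 * ((p' - p - 1 : ℤ) : ℝ) - 2 * (y p' - y p) ^ 2 * ∑ i ∈ Ico (-(M : ℤ)) M, h i ≤
      (y p' - y p) * (vel y M p' - vel y M p) := by
  set D := y p' - y p with hD
  have hDpos : 0 < D := sub_pos.2 (hy hp)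
  set R := ((Ico (-(M : ℤ)) M).erase p).erase p' with hR
  have e1 : (Ico (-(M : ℤ)) M).erase p' = insert p R := by
    ext i
    simp only [hR, mem_erase, mem_Ico, mem_insert]
    omega
  have e2 : (Ico (-(M : ℤ)) M).erase p = insert p' R := by
    ext i
    simp only [hR, mem_erase, mem_Ico, mem_insert]
    omega
  have e3 : vel y M p' = 2 * ((y p' - y p)⁻¹ + ∑ i ∈ R, (y p' - y i)⁻¹) := by
    unfold vel
    rw [e1, sum_insert (by simp [hR])]
  have e4 : vel y M p = 2 * ((y p - y p')⁻¹ + ∑ i ∈ R, (y p - y i)⁻¹) := by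
    unfold vel
    rw [e2, sum_insert (by simp [hR])]
  have e5 : (y p - y p')⁻¹ = - D⁻¹ := by rw [hD, ← neg_sub, inv_neg]
  have e6 : D * (vel y M p' - vel y M p) =
      4 + 2 * ∑ i ∈ R, D * ((y p' - y i)⁻¹ - (y p - y i)⁻¹) := by
    rw [e3, e4, e5, ← hD, ← mul_sum, sum_sub_distrib]
    field_simp
    ring
  rw [e6]
  have hsplit : R = (Ioo p p') ∪ (R.filter fun i => i < p ∨ p' < i) := by
    ext i
    simp only [hR, mem_erase, mem_Ico, mem_union, mem_filter, mem_Ioo]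
    omega
  have hdisj : Disjoint (Ioo p p') (R.filter fun i => i < p ∨ p' < i) := by
    rw [disjoint_left]
    intro i hi hi'
    rw [mem_Ioo] at hi
    rw [mem_filter] at hi'
    omega
  have h3 : (4 : ℝ) * ((p' - p - 1 : ℤ) : ℝ) ≤
      ∑ i ∈ Ioo p p', D * ((y p' - y i)⁻¹ - (y p - y i)⁻¹) := by
    have hc : ((Ioo p p').card : ℝ) = ((p' - p - 1 : ℤ) : ℝ) := by
      rw [Int.card_Ioo]
      have : (((p' - p - 1).toNat : ℤ) : ℝ) = ((p' - p - 1 : ℤ) : ℝ) := by
        congr 1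
        exact Int.toNat_of_nonneg (by omega)
      exact_mod_cast this
    rw [← hc, mul_comm, ← nsmul_eq_mul, ← sum_const]
    refine sum_le_sum fun i hi => ?_
    rw [mem_Ioo] at hi
    have h4 : 0 < y p' - y i := sub_pos.2 (hy hi.2)
    have h5 : 0 < y i - y p := sub_pos.2 (hy hi.1)
    have h6 : (y p - y i)⁻¹ = - (y i - y p)⁻¹ := by rw [← neg_sub, inv_neg]
    rw [h6, sub_neg_eq_add]
    have h7 : D = (y p' - y i) + (y i - y p) := by rw [hD]; ring
    rw [h7]
    set α := y p' - y i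
    set β := y i - y p
    have h8 : (α + β) * (α⁻¹ + β⁻¹) = (α + β) ^ 2 / (α * β) := by
      field_simp
      ring
    rw [h8, le_div_iff₀ (by positivity)]
    nlinarith [sq_nonneg (α - β)]
  have h9 : - (D ^ 2 * ∑ i ∈ Ico (-(M : ℤ)) M, h i) ≤
      ∑ i ∈ R.filter (fun i => i < p ∨ p' < i), D * ((y p' - y i)⁻¹ - (y p - y i)⁻¹) := by
    have h10 : ∑ i ∈ R.filter (fun i => i < p ∨ p' < i), (- (D ^ 2 * h i)) ≤
        ∑ i ∈ R.filter (fun i => i < p ∨ p' < i), D * ((y p' - y i)⁻¹ - (y p - y i)⁻¹) := by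
      refine sum_le_sum fun i hi => ?_
      rw [mem_filter] at hi
      have h11 := hh i hi.2
      have h12 : y p' - y i ≠ 0 := by
        rcases hi.2 with h | h
        · exact (sub_pos.2 (hy (h.trans hp))).ne'
        · exact (sub_neg.2 (hy h)).ne
      have h13 : y p - y i ≠ 0 := by
        rcases hi.2 with h | h
        · exact (sub_pos.2 (hy h)).ne'
        · exact (sub_neg.2 (hy (hp.trans h))).ne
      have h14 : D * ((y p' - y i)⁻¹ - (y p - y i)⁻¹) =
          - (D ^ 2 * ((y p' - y i) * (y p - y i))⁻¹) := by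
        field_simp
        rw [hD]
        ring
      rw [h14]
      exact neg_le_neg (mul_le_mul_of_nonneg_left h11 (by positivity))
    refine le_trans ?_ h10
    rw [sum_neg_distrib, ← mul_sum]
    refine neg_le_neg (mul_le_mul_of_nonneg_left ?_ (by positivity))
    refine sum_le_sum_of_subset_of_nonneg ?_ (fun i _ _ => hh0 i)
    intro i hi
    rw [mem_filter, hR, mem_erase, mem_erase] at hi
    exact hi.1.2.2
  rw [hsplit, sum_union hdisj]
  nlinarith [h3, h9]

/-- the lower bound for the relative velocity in the situation of the induction step -/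
lemma deriv_bound {y : ℤ → ℝ} (hy : StrictMono y) {x a K c : ℝ} (ha : 0 < a) (hc : 0 < c)
    (hK1 : 1 ≤ a * K) (hca : c ≤ a / 2)
    (hK : ∀ᶠ M : ℕ in atTop, ∑ i ∈ Ico (-(M : ℤ)) M, a / ((x - y i) ^ 2 + a ^ 2) ≤ K)
    {k p p' : ℤ} (hp : p < p') (hpk : p ≤ k) (hkp : k + 1 ≤ p') (hk : |y k - x| ≤ a / 16)
    (hD : y p' - y p ≤ c / 3) (hr : c ≤ y (p' + 1) - y p) (hl : c ≤ y p' - y (p - 1))
    {v v' : ℝ} (hv : Tendsto (fun M : ℕ => vel y M p) atTop (𝓝 v))
    (hv' : Tendsto (fun M : ℕ => vel y M p') atTop (𝓝 v')) :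
    4 + 8 * ((p' - p - 1 : ℤ) : ℝ) - 12 * (a * K) / c ^ 2 * (y p' - y p) ^ 2 ≤
      (y p' - y p) * (v' - v) := by
  classical
  have hlim := (hv'.sub hv).const_mul (y p' - y p)
  refine ge_of_tendsto hlim ?_
  have hidx : ∀ᶠ M : ℕ in atTop, -(M : ℤ) ≤ p ∧ p' < M := by
    filter_upwards [eventually_gt_atTop (p.natAbs + p'.natAbs)] with M hM
    omega
  filter_upwards [hidx, hK] with M hM hKM
  -- the majorant
  let h : ℤ → ℝ := fun i => if |y i - x| ≤ a then 2 / c ^ 2 else 5 / ((x - y i) ^ 2 + a ^ 2)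
  have hD0 : 0 < y p' - y p := sub_pos.2 (hy hp)
  have hyk1 : y p ≤ y k := hy.monotone hpk
  have hyk2 : y k ≤ y p' := hy.monotone (by omega)
  have hh0 : ∀ i, 0 ≤ h i := by
    intro i
    dsimp only [h]
    split_ifs <;> positivity
  have hk' := abs_le.1 hk
  have hh : ∀ i, i < p ∨ p' < i → ((y p' - y i) * (y p - y i))⁻¹ ≤ h i := by
    intro i hi
    have hprod : c ^ 2 / 2 ≤ (y p' - y i) * (y p - y i) := by
      rcases hi with h1 | h1
      · have h2 : y i ≤ y (p - 1) := hy.monotone (by omega)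
        have h3 : c ≤ y p' - y i := by linarith
        have h4 : 2 * c / 3 ≤ y p - y i := by linarith
        nlinarith
      · have h2 : y (p' + 1) ≤ y i := hy.monotone (by omega)
        have h3 : c ≤ y i - y p := by linarith
        have h4 : 2 * c / 3 ≤ y i - y p' := by linarith
        nlinarith
    dsimp only [h]
    split_ifs with h1
    · have h2 : (2 : ℝ) / c ^ 2 = (c ^ 2 / 2)⁻¹ := by rw [inv_div]
      rw [h2]
      exact inv_anti₀ (by positivity) hprod
    · rw [not_le] at h1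
      have h2 : 121 / 256 * (y i - x) ^ 2 ≤ (y p' - y i) * (y p - y i) := by
        rcases lt_abs.1 h1 with h3 | h3
        · -- `y i - x > a`
          have h4 : 11 / 16 * (y i - x) ≤ y i - y p' := by linarith
          have h5 : 11 / 16 * (y i - x) ≤ y i - y p := by linarith
          have h6 : 0 ≤ 11 / 16 * (y i - x) := by linarith
          have h7 := mul_le_mul h4 h5 h6 (h6.trans h4)
          nlinarith
        · have h4 : 11 / 16 * (x - y i) ≤ y p' - y i := by linarith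
          have h5 : 11 / 16 * (x - y i) ≤ y p - y i := by linarith
          have h6 : 0 ≤ 11 / 16 * (x - y i) := by linarith
          have h7 := mul_le_mul h4 h5 h6 (h6.trans h4)
          nlinarith
      have h3 : a ^ 2 ≤ (y i - x) ^ 2 := by
        rw [← sq_abs (y i - x)]
        exact pow_le_pow_left₀ ha.le h1.le 2
      have h4 : (5 : ℝ) / ((x - y i) ^ 2 + a ^ 2) = (((x - y i) ^ 2 + a ^ 2) / 5)⁻¹ := by
        rw [inv_div]
      rw [h4]
      refine inv_anti₀ (by positivity) ?_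
      nlinarith
  have h5 := vel_diff hy hp hM.1 hM.2 hh hh0
  refine le_trans ?_ h5
  have h6 : ∑ i ∈ Ico (-(M : ℤ)) M, h i ≤ 6 * (a * K) / c ^ 2 := by
    have h7 : ∑ i ∈ Ico (-(M : ℤ)) M, h i = ∑ i ∈ (Ico (-(M : ℤ)) M).filter (fun i => |y i - x| ≤ a),
        2 / c ^ 2 + ∑ i ∈ (Ico (-(M : ℤ)) M).filter (fun i => ¬ |y i - x| ≤ a),
        5 / ((x - y i) ^ 2 + a ^ 2) := by
      rw [← sum_filter_add_sum_filter_not (Ico (-(M : ℤ)) M) (fun i => |y i - x| ≤ a) h]
      congr 1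
      · refine sum_congr rfl fun i hi => ?_
        rw [mem_filter] at hi
        exact if_pos hi.2
      · refine sum_congr rfl fun i hi => ?_
        rw [mem_filter] at hi
        exact if_neg hi.2
    have h8 : ∑ i ∈ (Ico (-(M : ℤ)) M).filter (fun i => |y i - x| ≤ a), 2 / c ^ 2 ≤
        4 * (a * K) / c ^ 2 := by
      rw [sum_const, nsmul_eq_mul]
      have h9 := card_window ha hK ((Ico (-(M : ℤ)) M).filter (fun i => |y i - x| ≤ a))
        (fun i hi => (mem_filter.1 hi).2)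
      rw [mul_div_assoc']
      refine div_le_div_of_nonneg_right ?_ (by positivity)
      linarith
    have h10 : ∑ i ∈ (Ico (-(M : ℤ)) M).filter (fun i => ¬ |y i - x| ≤ a),
        5 / ((x - y i) ^ 2 + a ^ 2) ≤ 5 * K / a := by
      have h11 : ∑ i ∈ (Ico (-(M : ℤ)) M).filter (fun i => ¬ |y i - x| ≤ a),
          5 / ((x - y i) ^ 2 + a ^ 2) ≤
          ∑ i ∈ Ico (-(M : ℤ)) M, 5 / ((x - y i) ^ 2 + a ^ 2) :=
        sum_le_sum_of_subset_of_nonneg (filter_subset _ _) (fun i _ _ => by positivity)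
      refine h11.trans ?_
      have h12 : ∑ i ∈ Ico (-(M : ℤ)) M, 5 / ((x - y i) ^ 2 + a ^ 2) =
          5 / a * ∑ i ∈ Ico (-(M : ℤ)) M, a / ((x - y i) ^ 2 + a ^ 2) := by
        rw [mul_sum]
        refine sum_congr rfl fun i _ => ?_
        field_simp
      rw [h12]
      have h13 := mul_le_mul_of_nonneg_left hKM (by positivity : (0 : ℝ) ≤ 5 / a)
      refine h13.trans (le_of_eq ?_)
      ring
    have h14 : 5 * K / a ≤ 2 * (a * K) / c ^ 2 := by
      rw [div_le_div_iff₀ ha (by positivity)]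
      have hK0 : 0 < K := by
        by_contra hcon
        have : a * K ≤ 0 := mul_nonpos_of_nonneg_of_nonpos ha.le (not_lt.1 hcon)
        linarith
      have hc2 : c ^ 2 ≤ a ^ 2 / 4 := by nlinarith
      nlinarith
    rw [h7]
    have h15 : 6 * (a * K) / c ^ 2 = 4 * (a * K) / c ^ 2 + 2 * (a * K) / c ^ 2 := by ring
    rw [h15]
    exact add_le_add h8 (h10.trans h14)
  have h7 : (y p' - y p) ^ 2 * ∑ i ∈ Ico (-(M : ℤ)) M, h i ≤
      (y p' - y p) ^ 2 * (6 * (a * K) / c ^ 2) := mul_le_mul_of_nonneg_left h6 (by positivity)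
  have h8 : 12 * (a * K) / c ^ 2 * (y p' - y p) ^ 2 =
      2 * ((y p' - y p) ^ 2 * (6 * (a * K) / c ^ 2)) := by ring
  rw [h8]
  linarith

end Pool.Agent.P8H72.PC
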