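import Pool.Agent.P8H72.PC.Clus1

set_option autoImplicit false

/-!
# Package CLUS, second part: the induction
-/

namespace Pool.Agent.P8H72.PC

open Finset Filter Topology
open Pool.Agent.P8H8.HF

/-- the lower bounds -/
noncomputable def rr (Q ν : ℝ) (N : ℕ) : ℕ → ℝ
  | 0 => Q
  | (m + 1) => rr Q ν N m * ((N - m : ℕ) : ℝ) / (20 * ν)

lemma rr_pos {Q ν : ℝ} (hQ : 0 < Q) (hν : 0 < ν) {N : ℕ} : ∀ m, m ≤ N → 0 < rr Q ν N m
  | 0, _ => hQ
  | (m + 1), h => by
    have h1 : 0 < rr Q ν N m := rr_pos hQ hν m (by omega)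
    have h2 : (0 : ℝ) < ((N - m : ℕ) : ℝ) := by
      have : 0 < N - m := by omega
      exact_mod_cast this
    unfold rr
    positivity

lemma rr_le {Q ν : ℝ} (hQ : 0 < Q) (hν : 0 < ν) {N : ℕ} (hN : (N : ℝ) ≤ 2 * ν) :
    ∀ m, m ≤ N → rr Q ν N m ≤ Q
  | 0, _ => le_rfl
  | (m + 1), h => by
    have h1 := rr_le hQ hν hN m (by omega)
    have h2 := rr_pos hQ hν m (by omega : m ≤ N)
    have h3 : ((N - m : ℕ) : ℝ) ≤ N := by exact_mod_cast Nat.sub_le N m
    have h4 : ((N - m : ℕ) : ℝ) / (20 * ν) ≤ 1 := by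
      rw [div_le_one (by positivity)]
      linarith
    unfold rr
    rw [mul_div_assoc]
    calc rr Q ν N m * (((N - m : ℕ) : ℝ) / (20 * ν)) ≤ rr Q ν N m * 1 :=
          mul_le_mul_of_nonneg_left h4 h2.le
      _ ≤ Q := by rw [mul_one]; exact h1

lemma rr_eq (Q : ℝ) {ν : ℝ} (hν : 0 < ν) (N : ℕ) : ∀ m, m ≤ N →
    rr Q ν N m * ((N - m).factorial : ℝ) = Q * (N.factorial : ℝ) / (20 * ν) ^ m
  | 0, _ => by simp [rr]
  | (m + 1), h => by
    have h1 := rr_eq Q hν N m (by omega)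
    have h2 : N - m = (N - (m + 1)) + 1 := by omega
    have h3 : ((N - m).factorial : ℝ) = ((N - m : ℕ) : ℝ) * ((N - (m + 1)).factorial : ℝ) := by
      rw [h2, Nat.factorial_succ]
      push_cast
      ring
    rw [h3] at h1
    unfold rr
    rw [pow_succ]
    field_simp
    field_simp at h1
    linarith

/-- the induction claim -/
def Claim (y : ℝ → ℤ → ℝ) (τ σ Q ν : ℝ) (k : ℤ) (N m : ℕ) : Prop :=
  ∀ s, τ + m * (Q / (40 * ν)) ≤ s → s ≤ σ → ∀ p : ℤ, p ≤ k → k + 1 ≤ p + (N - m : ℕ) →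
    rr Q ν N m ≤ (y s (p + (N - m : ℕ)) - y s p) ^ 2

section

variable {y : ℝ → ℤ → ℝ} {R : ℝ} (hF : Flow y R) {τ σ x a K Q : ℝ} {k : ℤ}
  (hτ : 0 < τ) (hσ : τ + Q ≤ σ) (hR : σ < R) (ha : 0 < a) (hQ : 0 < Q) (hQa : Q ≤ a ^ 2 / 4)
  (haK : 1 ≤ a * K) (hk : ∀ s, τ ≤ s → s ≤ σ → |y s k - x| ≤ a / 16)
  (hK : ∀ s, τ ≤ s → s ≤ σ → ∀ᶠ M : ℕ in atTop,
    ∑ i ∈ Ico (-(M : ℤ)) M, a / ((x - y s i) ^ 2 + a ^ 2) ≤ K)

include hF hτ hR ha hQa hk hK

lemma claim_zero : Claim y τ σ Q (a * K) k ⌊2 * (a * K)⌋₊ 0 := by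
  intro s hs1 hs2 p hp1 hp2
  set N := ⌊2 * (a * K)⌋₊ with hN
  simp only [Nat.cast_zero, zero_mul, add_zero] at hs1
  rw [Nat.sub_zero] at hp2 ⊢
  by_contra hcon
  rw [not_le] at hcon
  have hy := hF.mono s (by linarith) (by linarith)
  have hpos : 0 ≤ y s (p + N) - y s p := sub_nonneg.2 (hy.monotone (by omega))
  have h1 : y s (p + N) - y s p < a / 2 := by
    have h2 : (y s (p + N) - y s p) ^ 2 < (a / 2) ^ 2 := by
      have h3 : rr Q (a * K) N 0 = Q := rfl
      rw [h3] at hcon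
      nlinarith
    exact lt_of_pow_lt_pow_left₀ 2 (by positivity) h2
  have hks := abs_le.1 (hk s hs1 hs2)
  have h4 : ∀ i ∈ Icc p (p + N), |y s i - x| ≤ a := by
    intro i hi
    rw [mem_Icc] at hi
    have h5 : y s p ≤ y s i := hy.monotone hi.1
    have h6 : y s i ≤ y s (p + N) := hy.monotone hi.2
    have h7 : y s p ≤ y s k := hy.monotone hp1
    have h8 : y s k ≤ y s (p + N) := hy.monotone (by omega)
    rw [abs_le]
    constructor <;> linarith
  have h5 := card_window ha (hK s hs1 hs2) (Icc p (p + N)) h4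
  have h6 : (Icc p (p + N)).card = N + 1 := by
    rw [Int.card_Icc]
    omega
  rw [h6] at h5
  have h7 : N + 1 ≤ ⌊2 * (a * K)⌋₊ := Nat.le_floor h5
  omega

include hQ haK

lemma claim_step {m : ℕ} (hm : m + 2 ≤ ⌊2 * (a * K)⌋₊)
    (hP : Claim y τ σ Q (a * K) k ⌊2 * (a * K)⌋₊ m) :
    Claim y τ σ Q (a * K) k ⌊2 * (a * K)⌋₊ (m + 1) := by
  set ν := a * K with hν
  set N := ⌊2 * ν⌋₊ with hN
  have hν0 : 0 < ν := by linarith
  have hN2 : (N : ℝ) ≤ 2 * ν := Nat.floor_le (by positivity)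
  intro s hs1 hs2 p hp1 hp2
  -- the number `J` of points of the block
  obtain ⟨J, hJ⟩ : ∃ J : ℕ, J = N - m := ⟨_, rfl⟩
  have hJ2 : 2 ≤ J := by omega
  have hJN : (J : ℝ) ≤ N := by exact_mod_cast (by omega : J ≤ N)
  have hJ2' : (2 : ℝ) ≤ J := by exact_mod_cast hJ2
  have hJ1 : ((N - (m + 1) : ℕ) : ℤ) = (J : ℤ) - 1 := by omega
  obtain ⟨p', hp'⟩ : ∃ p' : ℤ, p' = p + (N - (m + 1) : ℕ) := ⟨_, rfl⟩
  rw [← hp'] at hp2 ⊢
  have hpp' : p' = p + J - 1 := by omega
  set C := rr Q ν N m with hC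
  have hC0 : 0 < C := rr_pos hQ hν0 m (by omega)
  have hCQ : C ≤ Q := rr_le hQ hν0 hN2 m (by omega)
  have hq : rr Q ν N (m + 1) = C * J / (20 * ν) := by
    rw [hJ]; rfl
  set q := rr Q ν N (m + 1) with hqdef
  have hq0 : 0 < q := rr_pos hQ hν0 (m + 1) (by omega)
  -- the starting time
  set s0 := s - q / (2 * J) with hs0
  have hqJ : q / (2 * J) = C / (40 * ν) := by
    rw [hq]
    have : (J : ℝ) ≠ 0 := by positivity
    field_simp
    ring
  have hs0le : s0 ≤ s := by
    rw [hs0]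
    have : 0 ≤ q / (2 * J) := by positivity
    linarith
  have hs0ge : τ + m * (Q / (40 * ν)) ≤ s0 := by
    rw [hs0, hqJ]
    have h1 : C / (40 * ν) ≤ Q / (40 * ν) := div_le_div_of_nonneg_right hCQ (by positivity)
    push_cast at hs1
    linarith
  have hτs0 : τ ≤ s0 := by
    have : 0 ≤ m * (Q / (40 * ν)) := by positivity
    linarith
  -- the comparison
  have hder : ∀ u, τ ≤ u → u ≤ σ → ∃ v v' : ℝ, HasDerivAt (fun s => y s p) v u ∧
      HasDerivAt (fun s => y s p') v' u ∧ Tendsto (fun M : ℕ => vel (y u) M p) atTop (𝓝 v) ∧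
      Tendsto (fun M : ℕ => vel (y u) M p') atTop (𝓝 v') := by
    intro u hu1 hu2
    obtain ⟨v, hv1, hv2⟩ := hF.der u (by linarith) (by linarith) p
    obtain ⟨v', hv1', hv2'⟩ := hF.der u (by linarith) (by linarith) p'
    exact ⟨v, v', hv1, hv1', hv2, hv2'⟩
  have hder' : ∀ u ∈ Set.Icc τ σ, HasDerivAt (fun s => -(y s p' - y s p) ^ 2)
      (-(2 * (y u p' - y u p) * (deriv (fun s => y s p') u - deriv (fun s => y s p) u))) u := by
    intro u hu
    obtain ⟨v, v', h1, h2, -, -⟩ := hder u hu.1 hu.2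
    rw [h1.deriv, h2.deriv]
    have h3 := ((h2.sub h1).pow 2).neg
    refine h3.congr_deriv ?_
    simp
  have hcomp : ∀ ⦃u⦄, u ∈ Set.Icc s0 s → -(y u p' - y u p) ^ 2 ≤ -(2 * J * (u - s0)) := by
    refine image_le_of_deriv_right_lt_deriv_boundary (f := fun s => -(y s p' - y s p) ^ 2)
      (f' := fun u => -(2 * (y u p' - y u p) *
        (deriv (fun s => y s p') u - deriv (fun s => y s p) u)))
      (B := fun u => -(2 * J * (u - s0))) (B' := fun _ => -(2 * (J : ℝ))) ?_ ?_ ?_ ?_ ?_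
    · intro u hu
      exact (hder' u ⟨by linarith [hu.1], by linarith [hu.2]⟩).continuousAt.continuousWithinAt
    · intro u hu
      exact (hder' u ⟨by linarith [hu.1], by linarith [hu.2]⟩).hasDerivWithinAt
    · simp only [sub_self, mul_zero, neg_zero]
      exact neg_nonpos.2 (sq_nonneg _)
    · intro u
      have h1 : HasDerivAt (fun u : ℝ => -(2 * (J : ℝ) * (u - s0))) (-(2 * (J : ℝ) * 1)) u :=
        (((hasDerivAt_id u).sub_const s0).const_mul (2 * (J : ℝ))).neg
      refine h1.congr_deriv ?_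
      ring
    · intro u hu hfu
      have hu1 : τ ≤ u := by linarith [hu.1]
      have hu2 : u ≤ σ := by linarith [hu.2]
      obtain ⟨v, v', h1, h2, h3, h4⟩ := hder u hu1 hu2
      rw [h1.deriv, h2.deriv, neg_lt_neg_iff]
      have hy := hF.mono u (by linarith) (by linarith)
      have hD0 : 0 < y u p' - y u p := sub_pos.2 (hy (by omega))
      have hD2 : (y u p' - y u p) ^ 2 ≤ q := by
        have h5 : (y u p' - y u p) ^ 2 = 2 * J * (u - s0) := by linarith
        rw [h5]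
        have h6 : u - s0 ≤ q / (2 * J) := by
          have := hu.2
          rw [hs0]
          linarith
        calc 2 * (J : ℝ) * (u - s0) ≤ 2 * J * (q / (2 * J)) :=
              mul_le_mul_of_nonneg_left h6 (by positivity)
          _ = q := by field_simp
      set c := Real.sqrt C with hc
      have hc0 : 0 < c := Real.sqrt_pos.2 hC0
      have hc2 : c ^ 2 = C := Real.sq_sqrt hC0.le
      have hq10 : q ≤ C / 10 := by
        rw [hq, div_le_div_iff₀ (by positivity) (by norm_num)]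
        nlinarith
      have hD : y u p' - y u p ≤ c / 3 := by
        refine le_of_sq_le_sq ?_ (by positivity)
        nlinarith
      have hca : c ≤ a / 2 := by
        refine le_of_sq_le_sq ?_ (by positivity)
        nlinarith
      have hr : c ≤ y u (p' + 1) - y u p := by
        have h5 := hP u (by linarith [hu.1]) hu2 p hp1 (by omega)
        have h6 : p + (N - m : ℕ) = p' + 1 := by omega
        rw [h6] at h5
        refine le_of_sq_le_sq ?_ (sub_nonneg.2 (hy.monotone (by omega)))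
        rw [hc2]
        exact h5
      have hl : c ≤ y u p' - y u (p - 1) := by
        have h5 := hP u (by linarith [hu.1]) hu2 (p - 1) (by omega) (by omega)
        have h6 : p - 1 + (N - m : ℕ) = p' := by omega
        rw [h6] at h5
        refine le_of_sq_le_sq ?_ (sub_nonneg.2 (hy.monotone (by omega)))
        rw [hc2]
        exact h5
      have h5 := deriv_bound hy ha hc0 haK hca (hK u hu1 hu2) (by omega : p < p') hp1 hp2
        (hk u hu1 hu2) hD hr hl h3 h4
      have h6 : ((p' - p - 1 : ℤ) : ℝ) = J - 2 := by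
        have : p' - p - 1 = (J : ℤ) - 2 := by omega
        rw [this]
        push_cast
        ring
      rw [h6, hc2] at h5
      have h7 : 12 * (a * K) / C * (y u p' - y u p) ^ 2 ≤ 12 * J / 20 := by
        have h8 : 12 * (a * K) / C * (y u p' - y u p) ^ 2 ≤ 12 * (a * K) / C * q :=
          mul_le_mul_of_nonneg_left hD2 (by positivity)
        refine h8.trans (le_of_eq ?_)
        rw [hq, ← hν]
        field_simp
      nlinarith
  have h9 := hcomp (Set.right_mem_Icc.2 hs0le)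
  have h10 : 2 * (J : ℝ) * (s - s0) = q := by
    rw [hs0]
    have : (J : ℝ) ≠ 0 := by positivity
    field_simp
    ring
  rw [h10] at h9
  linarith

include hσ in
theorem clus_main : Q * ((⌊2 * (a * K)⌋₊).factorial : ℝ) / (20 * (a * K)) ^ (⌊2 * (a * K)⌋₊ - 1) ≤
    gp (y σ) k ^ 2 := by
  set N := ⌊2 * (a * K)⌋₊ with hN
  have hν0 : 0 < a * K := by linarith
  have hN2 : 2 ≤ N := Nat.le_floor (by push_cast; linarith)
  have hall : ∀ m, m + 1 ≤ N → Claim y τ σ Q (a * K) k N m := by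
    intro m
    induction m with
    | zero => intro _; exact claim_zero hF hτ hR ha hQa hk hK
    | succ m ih =>
      intro h
      exact claim_step hF hτ hR ha hQ hQa haK hk hK (by omega) (ih (by omega))
  obtain ⟨m, hm⟩ : ∃ m, m = N - 1 := ⟨_, rfl⟩
  have h1 := hall m (by omega) σ ?_ le_rfl k le_rfl (by omega)
  · have h2 : ((N - m : ℕ) : ℤ) = 1 := by omega
    rw [h2] at h1
    have h3 := rr_eq Q hν0 N m (by omega)
    have h4 : N - m = 1 := by omega
    rw [h4, Nat.factorial_one, Nat.cast_one, mul_one] at h3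
    rw [h3, hm] at h1
    exact h1
  · have h5 : (m : ℝ) ≤ 2 * (a * K) := by
      have h6 : (N : ℝ) ≤ 2 * (a * K) := Nat.floor_le (by positivity)
      have h7 : (m : ℝ) ≤ N := by exact_mod_cast (by omega : m ≤ N)
      linarith
    have h6 : (m : ℝ) * (Q / (40 * (a * K))) ≤ Q := by
      rw [mul_div_assoc', div_le_iff₀ (by positivity)]
      nlinarith
    linarith

end

end Pool.Agent.P8H72.PC
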